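import Mathlib

namespace Pool.Agent.Results.MP_4bc86c_co.XorColouring

open SimpleGraph

/-- `c` is a proper edge-colouring of the complete graph on `V`: two distinct edges
`xy`, `xz` sharing the vertex `x` get different colours. -/
def IsProper {V : Type} (c : Sym2 V → ℕ) : Prop :=
  ∀ x y z : V, x ≠ y → x ≠ z → y ≠ z → c s(x, y) ≠ c s(x, z)

/-- The number of colours that `c` uses on the edges of the complete graph on `V`. -/
noncomputable def numColours {V : Type} (c : Sym2 V → ℕ) : ℕ :=
  (c '' (⊤ : SimpleGraph V).edgeSet).ncard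

/-- `c` is an optimal edge-colouring of the complete graph on `V`: it is proper and no proper
edge-colouring uses fewer colours. -/
def IsOptimal {V : Type} (c : Sym2 V → ℕ) : Prop :=
  IsProper c ∧ ∀ c' : Sym2 V → ℕ, IsProper c' → numColours c ≤ numColours c'

/-- The complete graph on `V`, coloured by `c`, has a rainbow cycle with `l` edges. -/
def HasRainbowCycle {V : Type} (c : Sym2 V → ℕ) (l : ℕ) : Prop :=
  ∃ (v : V) (w : (⊤ : SimpleGraph V).Walk v v),
    w.IsCycle ∧ w.length = l ∧ (w.edges.map c).Nodup

section Group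

variable {k : ℕ}

abbrev Cube (k : ℕ) := Fin k → ZMod 2

lemma add_self_cube (x : Cube k) : x + x = 0 := by
  funext i
  simp only [Pi.add_apply, Pi.zero_apply]
  exact CharTwo.add_self_eq_zero _

lemma card_cube : Fintype.card (Cube k) = 2 ^ k := by
  simp [Cube, ZMod.card]

lemma sum_cube (hk : 2 ≤ k) : ∑ x : Cube k, x = 0 := by
  classical
  funext i
  rw [Finset.sum_apply, Pi.zero_apply]
  obtain ⟨j, hj⟩ : ∃ j : Fin k, j ≠ i := by
    have : Nontrivial (Fin k) := Fin.nontrivial_iff_two_le.mpr hk
    exact exists_ne i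
  -- the involution flipping the coordinate j preserves the i-th coordinate
  have hone : (Pi.single j (1 : ZMod 2) : Cube k) ≠ 0 := by
    intro h
    have := congrFun h j
    simp at this
  refine Finset.sum_involution (fun x _ => x + Pi.single j (1 : ZMod 2)) ?_ ?_ ?_ ?_
  · intro x _
    have : (x + (Pi.single j (1 : ZMod 2) : Cube k)) i = x i := by
      rw [Pi.add_apply, Pi.single_eq_of_ne (Ne.symm hj), add_zero]
    rw [this]
    exact CharTwo.add_self_eq_zero _
  · intro x _ _ h
    exact hone (by simpa only [add_eq_left] using h)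
  · intro x _
    exact Finset.mem_univ _
  · intro x _
    rw [add_assoc, add_self_cube, add_zero]

/-- the sum of the colours along a walk is the sum of its ends -/
lemma walk_sum {V : Type} (e : V → Cube k) (g : Sym2 V → Cube k)
    (hg : ∀ x y, g s(x, y) = e x + e y) {u v : V} (w : (⊤ : SimpleGraph V).Walk u v) :
    (w.edges.map g).sum = e u + e v := by
  induction w with
  | nil => simp [add_self_cube]
  | @cons u v' w' h p ih =>
    rw [SimpleGraph.Walk.edges_cons, List.map_cons, List.sum_cons, ih, hg]
    have : e v' + e v' = 0 := add_self_cube _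
    calc e u + e v' + (e v' + e w') = e u + (e v' + e v') + e w' := by abel
      _ = e u + e w' := by rw [this, add_zero]

lemma no_list (hk : 2 ≤ k) (L : List (Cube k)) (hnd : L.Nodup) (h0 : (0 : Cube k) ∉ L)
    (hlen : L.length = 2 ^ k - 2) (hs : L.sum = 0) : False := by
  classical
  have hsub : L.toFinset ⊆ Finset.univ.erase 0 := by
    intro x hx
    rw [Finset.mem_erase]
    refine ⟨?_, Finset.mem_univ _⟩
    rintro rfl
    exact h0 (List.mem_toFinset.mp hx)
  have hcard : (Finset.univ.erase (0 : Cube k)).card = 2 ^ k - 1 := by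
    rw [Finset.card_erase_of_mem (Finset.mem_univ _), Finset.card_univ, card_cube]
  have hL : L.toFinset.card = 2 ^ k - 2 := by
    rw [List.toFinset_card_of_nodup hnd, hlen]
  have h4 : 4 ≤ 2 ^ k := by
    calc 4 = 2 ^ 2 := by norm_num
      _ ≤ 2 ^ k := Nat.pow_le_pow_right (by norm_num) hk
  have hdiff : ((Finset.univ.erase (0 : Cube k)) \ L.toFinset).card = 1 := by
    rw [Finset.card_sdiff_of_subset hsub, hcard, hL]
    omega
  obtain ⟨m, hm⟩ := Finset.card_eq_one.mp hdiff
  have hm0 : m ≠ 0 := by
    have : m ∈ (Finset.univ.erase (0 : Cube k)) \ L.toFinset := by rw [hm]; simp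
    rw [Finset.mem_sdiff, Finset.mem_erase] at this
    exact this.1.1
  have hsum : ∑ x ∈ Finset.univ.erase (0 : Cube k), x = 0 := by
    have := Finset.sum_erase (Finset.univ : Finset (Cube k)) (f := fun x => x) (a := 0) rfl
    rw [this]
    exact sum_cube hk
  rw [← Finset.sum_sdiff hsub, hm, Finset.sum_singleton] at hsum
  have hLs : ∑ x ∈ L.toFinset, x = 0 := by
    rw [List.sum_toFinset (fun x => x) hnd]
    simpa using hs
  rw [hLs, add_zero] at hsum
  exact hm0 hsum

end Group

/-- every proper colouring of the complete graph on `Fin n` uses at least `n - 1` colours -/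
lemma le_numColours {n : ℕ} (hn : 1 ≤ n) (c : Sym2 (Fin n) → ℕ) (hc : IsProper c) :
    n - 1 ≤ numColours c := by
  classical
  have hfin : (c '' (⊤ : SimpleGraph (Fin n)).edgeSet).Finite := Set.toFinite _
  let v0 : Fin n := ⟨0, hn⟩
  have hinj : Set.InjOn (fun y : Fin n => c s(v0, y)) ((Finset.univ.erase v0 : Finset (Fin n)) : Set (Fin n)) := by
    intro y hy z hz h
    by_contra hne
    have hy' : v0 ≠ y := by
      rintro rfl
      simp at hy
    have hz' : v0 ≠ z := by
      rintro rfl
      simp at hz
    exact hc v0 y z hy' hz' hne h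
  have h1 : ((Finset.univ.erase v0).image (fun y : Fin n => c s(v0, y))).card = n - 1 := by
    rw [Finset.card_image_of_injOn hinj, Finset.card_erase_of_mem (Finset.mem_univ _)]
    simp
  have h2 : (((Finset.univ.erase v0).image (fun y : Fin n => c s(v0, y)) : Finset ℕ) : Set ℕ) ⊆
      c '' (⊤ : SimpleGraph (Fin n)).edgeSet := by
    intro x hx
    simp only [Finset.coe_image, Set.mem_image, Finset.mem_coe, Finset.mem_erase,
      Finset.mem_univ, and_true] at hx
    obtain ⟨y, hy, rfl⟩ := hx
    refine ⟨s(v0, y), ?_, rfl⟩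
    rw [SimpleGraph.mem_edgeSet, SimpleGraph.top_adj]
    exact fun h => hy h.symm
  calc n - 1 = (((Finset.univ.erase v0).image (fun y : Fin n => c s(v0, y)) : Finset ℕ) : Set ℕ).ncard := by
        rw [Set.ncard_coe_finset, h1]
    _ ≤ numColours c := Set.ncard_le_ncard h2 hfin

/-- For every `k ≥ 2` the complete graph on `n = 2 ^ k` vertices has an optimal edge-colouring,
with exactly `n - 1` colours, that has no rainbow cycle of length `n - 2`. -/
theorem main (k : ℕ) (hk : 2 ≤ k) : ∃ c : Sym2 (Fin (2 ^ k)) → ℕ,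
    IsOptimal c ∧ numColours c = 2 ^ k - 1 ∧ ¬ HasRainbowCycle c (2 ^ k - 2) := by
  classical
  have hcard : Fintype.card (Fin (2 ^ k)) = Fintype.card (Cube k) := by
    rw [card_cube, Fintype.card_fin]
  let e : Fin (2 ^ k) ≃ Cube k := Fintype.equivOfCardEq hcard
  let g : Sym2 (Fin (2 ^ k)) → Cube k :=
    Sym2.lift ⟨fun x y => e x + e y, fun x y => add_comm _ _⟩
  have hg : ∀ x y, g s(x, y) = e x + e y := fun x y => by simp [g]
  let c : Sym2 (Fin (2 ^ k)) → ℕ := fun s => (e.symm (g s) : ℕ)
  have hcinj : ∀ s t, c s = c t → g s = g t := by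
    intro s t h
    have : e.symm (g s) = e.symm (g t) := Fin.ext h
    exact e.symm.injective this
  have hne : ∀ x y, x ≠ y → g s(x, y) ≠ 0 := by
    intro x y hxy h
    rw [hg] at h
    apply hxy
    apply e.injective
    have h2 : e x + e y + e y = e y := by rw [h, zero_add]
    rwa [add_assoc, add_self_cube, add_zero] at h2
  have hproper : IsProper c := by
    intro x y z _ _ hyz h
    have := hcinj _ _ h
    rw [hg, hg] at this
    exact hyz (e.injective (add_left_cancel this))
  have hpos : 1 ≤ 2 ^ k := Nat.one_le_two_pow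
  have hle : numColours c ≤ 2 ^ k - 1 := by
    have hsub : c '' (⊤ : SimpleGraph (Fin (2 ^ k))).edgeSet ⊆
        (((Finset.univ.erase (0 : Cube k)).image (fun x => ((e.symm x : Fin (2 ^ k)) : ℕ)) :
          Finset ℕ) : Set ℕ) := by
      rintro _ ⟨s, hs, rfl⟩
      induction s using Sym2.ind with
      | _ x y =>
        rw [SimpleGraph.mem_edgeSet, SimpleGraph.top_adj] at hs
        rw [Finset.mem_coe, Finset.mem_image]
        exact ⟨g s(x, y), Finset.mem_erase.mpr ⟨hne x y hs, Finset.mem_univ _⟩, rfl⟩
    calc numColours c ≤ _ := Set.ncard_le_ncard hsub (Finset.finite_toSet _)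
      _ ≤ (Finset.univ.erase (0 : Cube k)).card := by
        rw [Set.ncard_coe_finset]; exact Finset.card_image_le
      _ = 2 ^ k - 1 := by
        rw [Finset.card_erase_of_mem (Finset.mem_univ _), Finset.card_univ, card_cube]
  have heq : numColours c = 2 ^ k - 1 := le_antisymm hle (le_numColours hpos c hproper)
  refine ⟨c, ⟨hproper, fun c' hc' => ?_⟩, heq, ?_⟩
  · rw [heq]
    exact le_numColours hpos c' hc'
  · rintro ⟨v, w, -, hlen, hnd⟩
    have hmap : w.edges.map c = (w.edges.map g).map (fun x => ((e.symm x : Fin (2 ^ k)) : ℕ)) := by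
      rw [List.map_map]
      rfl
    rw [hmap] at hnd
    have hnd' : (w.edges.map g).Nodup := List.Nodup.of_map _ hnd
    refine no_list hk (w.edges.map g) hnd' ?_ ?_ ?_
    · intro h0
      rw [List.mem_map] at h0
      obtain ⟨s, hs, hs0⟩ := h0
      have hmem : s ∈ (⊤ : SimpleGraph (Fin (2 ^ k))).edgeSet := w.edges_subset_edgeSet hs
      induction s using Sym2.ind with
      | _ x y =>
        rw [SimpleGraph.mem_edgeSet, SimpleGraph.top_adj] at hmem
        exact hne x y hmem hs0
    · rw [List.length_map, SimpleGraph.Walk.length_edges, hlen]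
    · rw [walk_sum (fun x => e x) g hg w, add_self_cube]

/-- The answer to Q1 is negative, for infinitely many `n`: whenever `n ≥ 5` is a power of `2`,
some optimal edge-colouring of the complete graph on `n` vertices has no rainbow cycle of
length `n - 2`. -/
theorem result : ∀ k : ℕ, 5 ≤ 2 ^ k → ∃ c : Sym2 (Fin (2 ^ k)) → ℕ,
    IsOptimal c ∧ numColours c = 2 ^ k - 1 ∧ ¬ HasRainbowCycle c (2 ^ k - 2) := by
  intro k hk
  refine main k ?_
  by_contra h
  have : k < 2 := by omega
  interval_cases k <;> simp at hk

end Pool.Agent.Results.MP_4bc86c_co.XorColouring
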